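import Pool.Agent.Helper63.GW.StA

/-!
# Project GW, module BKB: basic facts on the weights
-/

set_option autoImplicit false

namespace Pool.Agent.Helper17.GW

open Finset ArithmeticFunction MeasureTheory
open Pool.Agent.Helper48.BK (ex th Sx Apx)
open Pool.Agent.Helper2.MR (ch)
open Pool.Agent.Helper15.AB (IsW)
open Pool.Agent.Helper23.GK
open Pool.Agent.Helper63.GW

lemma norm_ch_BKB (t : ℝ) (n : ℕ) : ‖ch t n‖ = 1 := by
  unfold ch
  exact Complex.norm_exp_ofReal_mul_I _

lemma cont_ch_BKB (n : ℕ) : Continuous (fun t : ℝ => ch t n) := by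
  unfold ch
  fun_prop

lemma blk2_bounds_BKB {e m : ℕ} (h : m ∈ blk2 e) : m ≤ 2 ^ e ∧ 2 ^ e ≤ 2 * m := by
  unfold blk2 at h
  split_ifs at h with h0
  · rw [Finset.mem_singleton] at h
    subst h; subst h0
    norm_num
  · rw [Finset.mem_Ioc] at h
    obtain ⟨e', rfl⟩ := Nat.exists_eq_succ_of_ne_zero h0
    simp only [Nat.succ_eq_add_one, Nat.add_sub_cancel] at h
    refine ⟨h.2, ?_⟩
    rw [pow_succ]
    omega

lemma tnt_bounds_BKB {e n : ℕ} (hn : 1 ≤ n) (h : tnt e n ≠ 0) :
    2 ^ e ≤ 2 * n ∧ n ≤ 2 ^ (e + 1) := by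
  have hn0 : (0 : ℝ) < n := by exact_mod_cast hn
  have h1 : |Real.logb 2 n - e| < 1 := by
    by_contra hcon
    push Not at hcon
    apply h
    unfold tnt
    exact max_eq_left (by linarith)
  rw [abs_lt] at h1
  constructor
  · have h2 : (e : ℝ) - 1 < Real.logb 2 n := by linarith [h1.1]
    rw [Real.lt_logb_iff_rpow_lt (by norm_num) hn0, Real.rpow_sub_one (by norm_num),
      Real.rpow_natCast] at h2
    have h3 : (2 : ℝ) ^ e < 2 * n := by linarith
    have h4 : 2 ^ e < 2 * n := by exact_mod_cast h3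
    exact h4.le
  · have h2 : Real.logb 2 n < (e : ℝ) + 1 := by linarith [h1.2]
    rw [Real.logb_lt_iff_lt_rpow (by norm_num) hn0] at h2
    have h3 : (n : ℝ) < 2 ^ (e + 1) := by
      have e1 : (2 : ℝ) ^ ((e : ℝ) + 1) = 2 ^ (e + 1) := by
        rw [← Real.rpow_natCast]
        push_cast
        rfl
      rwa [e1] at h2
    have h4 : n < 2 ^ (e + 1) := by exact_mod_cast h3
    exact h4.le

lemma tnt_nonneg_BKB (e n : ℕ) : 0 ≤ tnt e n := le_max_left _ _

lemma tnt_le_one_BKB (e n : ℕ) : tnt e n ≤ 1 := by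
  unfold tnt
  apply max_le zero_le_one
  have := abs_nonneg (Real.logb 2 n - e)
  linarith

theorem hBKB : StBkb := by
  have p1 : ∀ (i : Fin 8) (e n : ℕ), 1 ≤ n → |w0 i e n| ≤ 1 + e := by
    intro i e n hn
    have he : (0 : ℝ) ≤ e := Nat.cast_nonneg e
    unfold w0
    split_ifs with h1 h2 h3
    · have h4 : |moebius n| ≤ 1 := abs_moebius_le_one
      have h5 : |((moebius n : ℤ) : ℝ)| ≤ 1 := by exact_mod_cast h4
      linarith
    · rw [abs_zero]; linarith
    · by_cases ht : tnt e n = 0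
      · rw [ht, zero_mul, abs_zero]; linarith
      · have h4 := (tnt_bounds_BKB hn ht).2
        have hn0 : (0 : ℝ) < n := by exact_mod_cast hn
        have h5 : Real.log n ≤ (e + 1) * Real.log 2 := by
          have : Real.log n ≤ Real.log ((2 : ℝ) ^ (e + 1)) :=
            Real.log_le_log hn0 (by exact_mod_cast h4)
          rw [Real.log_pow] at this
          push_cast at this
          exact this
        have h6 : 0 ≤ Real.log n := Real.log_natCast_nonneg n
        have h7 : Real.log 2 ≤ 1 := by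
          have := Real.log_two_lt_d9
          linarith
        rw [abs_of_nonneg (mul_nonneg (tnt_nonneg_BKB e n) h6)]
        calc tnt e n * Real.log n ≤ 1 * Real.log n :=
              mul_le_mul_of_nonneg_right (tnt_le_one_BKB e n) h6
          _ ≤ (e + 1) * Real.log 2 := by rw [one_mul]; exact h5
          _ ≤ (e + 1) * 1 := mul_le_mul_of_nonneg_left h7 (by linarith)
          _ = 1 + e := by ring
    · rw [abs_of_nonneg (tnt_nonneg_BKB e n)]
      linarith [tnt_le_one_BKB e n]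
  have p2 : ∀ (i : Fin 8) (e n : ℕ), 1 ≤ n → w0 i e n ≠ 0 → 2 ^ e ≤ 2 * n ∧ n ≤ 2 ^ (e + 1) ∧
      ((i : ℕ) < 4 → n ≤ 2 ^ e) := by
    intro i e n hn h
    unfold w0 at h
    split_ifs at h with h1 h2 h3
    · obtain ⟨h4, h5⟩ := blk2_bounds_BKB h2
      refine ⟨h5, ?_, fun _ => h4⟩
      rw [pow_succ]
      omega
    · exact absurd rfl h
    · have ht : tnt e n ≠ 0 := left_ne_zero_of_mul h
      obtain ⟨h4, h5⟩ := tnt_bounds_BKB hn ht
      exact ⟨h4, h5, fun h6 => absurd h6 h1⟩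
    · obtain ⟨h4, h5⟩ := tnt_bounds_BKB hn h
      exact ⟨h4, h5, fun h6 => absurd h6 h1⟩
  refine ⟨p1, p2, ?_, ?_⟩
  · intro q χ i e
    unfold bk
    refine continuous_finsetSum _ fun n _ => ?_
    exact (continuous_const.mul (cont_ch_BKB n)).div_const _
  · intro q χ i e t
    unfold bk
    have hterm : ∀ n ∈ Icc 1 (2 ^ (e + 1)),
        ‖((w0 i e n : ℝ) : ℂ) * χ (n : ZMod q) * ch t n / n‖ ≤ (1 + e) * (2 / 2 ^ e) := by
      intro n hn
      rw [Finset.mem_Icc] at hn
      have hn0 : (0 : ℝ) < n := by exact_mod_cast hn.1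
      by_cases hw : w0 i e n = 0
      · rw [hw]
        simp only [Complex.ofReal_zero, zero_mul, zero_div, norm_zero]
        positivity
      · obtain ⟨h4, -, -⟩ := p2 i e n hn.1 hw
        rw [norm_div, norm_mul, norm_mul, norm_ch_BKB, mul_one, Complex.norm_real,
          Real.norm_eq_abs, Complex.norm_natCast]
        have h5 : (2 : ℝ) ^ e ≤ 2 * n := by exact_mod_cast h4
        have h6 : (1 : ℝ) / n ≤ 2 / 2 ^ e := by
          rw [div_le_div_iff₀ hn0 (by positivity)]
          linarith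
        calc |w0 i e n| * ‖χ (n : ZMod q)‖ / n = |w0 i e n| * ‖χ (n : ZMod q)‖ * (1 / n) := by ring
          _ ≤ (1 + e) * 1 * (2 / 2 ^ e) := by
              apply mul_le_mul _ h6 (by positivity) (by positivity)
              exact mul_le_mul (p1 i e n hn.1) (χ.norm_le_one _) (norm_nonneg _) (by positivity)
          _ = (1 + e) * (2 / 2 ^ e) := by ring
    calc ‖∑ n ∈ Icc 1 (2 ^ (e + 1)), ((w0 i e n : ℝ) : ℂ) * χ (n : ZMod q) * ch t n / n‖
        ≤ ∑ n ∈ Icc 1 (2 ^ (e + 1)), ‖((w0 i e n : ℝ) : ℂ) * χ (n : ZMod q) * ch t n / n‖ :=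
          norm_sum_le _ _
      _ ≤ ∑ _n ∈ Icc 1 (2 ^ (e + 1)), (1 + (e : ℝ)) * (2 / 2 ^ e) := Finset.sum_le_sum hterm
      _ = 2 ^ (e + 1) * ((1 + (e : ℝ)) * (2 / 2 ^ e)) := by
          rw [Finset.sum_const, Nat.card_Icc, Nat.add_sub_cancel, nsmul_eq_mul]
          push_cast
          rfl
      _ = 4 * (1 + e) := by
          rw [pow_succ]
          field_simp
          ring

end Pool.Agent.Helper17.GW
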