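import Pool.Agent.Helper63.GW.StA
import Pool.Agent.Helper23.GK.M_DEC

/-!
# Project GW, module DEC4: decomposition of the smooth prime sum into block products
-/

set_option autoImplicit false

namespace Pool.Agent.Helper17.GW

open Finset ArithmeticFunction MeasureTheory
open Pool.Agent.Helper48.BK (ex th Sx Apx)
open Pool.Agent.Helper2.MR (ch)
open Pool.Agent.Helper15.AB (IsW)
open Pool.Agent.Helper23.GK
open Pool.Agent.Helper23.GK.DECaux
open Pool.Agent.Helper63.GW

lemma ch_prod_DEC4 (t : ℝ) {ι : Type} (s : Finset ι) (n : ι → ℕ) (hn : ∀ i ∈ s, n i ≠ 0) :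
    ch t (∏ i ∈ s, n i) = ∏ i ∈ s, ch t (n i) := by
  classical
  induction s using Finset.induction_on with
  | empty => simp [ch]
  | insert a s ha ih =>
    rw [Finset.prod_insert ha, Finset.prod_insert ha,
      ch_mul' t (hn a (Finset.mem_insert_self a s))
        (Finset.prod_ne_zero_iff.mpr fun i hi => hn i (Finset.mem_insert_of_mem hi)),
      ih fun i hi => hn i (Finset.mem_insert_of_mem hi)]

lemma PP8_eq_DEC4 {q : ℕ} (χ : DirichletCharacter ℂ q) (e : Fin 8 → ℕ) (s : ℝ) :
    PP8 χ e s = ∑ n ∈ Fintype.piFinset (fun i : Fin 8 => Icc 1 (2 ^ (e i + 1))),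
      (∏ i, ((w0 i (e i) (n i) : ℝ) : ℂ)) *
        (χ ((∏ i, n i : ℕ) : ZMod q) * ch s (∏ i, n i) / ((∏ i, n i : ℕ) : ℂ)) := by
  unfold PP8 bk
  rw [Finset.prod_univ_sum]
  refine Finset.sum_congr rfl fun n hn => ?_
  rw [Fintype.mem_piFinset] at hn
  have hn0 : ∀ i ∈ (Finset.univ : Finset (Fin 8)), n i ≠ 0 := by
    intro i _
    have := (Finset.mem_Icc.mp (hn i)).1
    omega
  rw [ch_prod_DEC4 s Finset.univ n hn0]
  push_cast
  rw [map_prod, Finset.prod_div_distrib, Finset.prod_mul_distrib, Finset.prod_mul_distrib]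
  ring

theorem hDEC4 (hHB : StHb4) (hF : StFo4) (hB : StBkb) : StDec4 := by
  intro w hw
  obtain ⟨K, CF, hCF, hKc, hKb, hK⟩ := hF w hw
  have hKi : Integrable K := by
    refine Integrable.mono' (integrable_inv_one_add_sq.const_mul (2 * CF))
      hKc.aestronglyMeasurable (Filter.Eventually.of_forall fun ξ => ?_)
    refine (hKb ξ).trans ?_
    rw [← div_eq_mul_inv, div_le_div_iff₀ (by positivity) (by positivity)]
    have h1 : 1 + ξ ^ 2 ≤ 2 * (1 + ξ ^ 4) := by nlinarith [sq_nonneg (ξ ^ 2 - 1), sq_nonneg (ξ ^ 2)]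
    nlinarith
  refine ⟨K, CF, hCF, hKc, hKb, ?_⟩
  intro q χ X u t hX hu
  set g : ℕ → ℂ := fun n => ((w (Real.log (n / X)) : ℝ) : ℂ) * (χ (n : ZMod q) * ch t n / n) with hg
  have hX0 : (0 : ℝ) < X := by exact_mod_cast hX
  have hgz : ∀ n, (n < X ∨ 3 * X ≤ n) → g n = 0 := by
    intro n hn
    rcases Nat.eq_zero_or_pos n with h0 | h0
    · rw [hg, h0]; simp
    · rw [hg]
      simp only
      rw [w_zero hw hX h0 hn]; simp
  -- the integral formula for `g`
  have hgi : ∀ n : ℕ, 1 ≤ n → g n = ∫ ξ : ℝ, K ξ *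
      Complex.exp (((-(ξ * Real.log X) : ℝ) : ℂ) * Complex.I) *
        (χ (n : ZMod q) * ch (t - ξ) n / n) := by
    intro n hn
    have hn0 : (0 : ℝ) < n := by exact_mod_cast hn
    rw [hg]
    simp only
    rw [hK, ← integral_mul_const]
    refine integral_congr_ae (Filter.Eventually.of_forall fun ξ => ?_)
    simp only
    have h1 : Complex.exp (((ξ * Real.log (n / X) : ℝ) : ℂ) * Complex.I) * ch t n =
        Complex.exp (((-(ξ * Real.log X) : ℝ) : ℂ) * Complex.I) * ch (t - ξ) n := by
      unfold ch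
      rw [← Complex.exp_add, ← Complex.exp_add, Real.log_div hn0.ne' hX0.ne']
      congr 1
      push_cast
      ring
    calc _ = K ξ * (Complex.exp (((ξ * Real.log (n / X) : ℝ) : ℂ) * Complex.I) * ch t n) *
          (χ (n : ZMod q) / n) := by ring
      _ = _ := by rw [h1]; ring
  have hTe : ∀ e : Fin 8 → ℕ, Te8 g e = ∫ ξ : ℝ, K ξ *
      Complex.exp (((-(ξ * Real.log X) : ℝ) : ℂ) * Complex.I) * PP8 χ e (t - ξ) := by
    intro e
    unfold Te8
    have h2 : ∀ ξ : ℝ, K ξ * Complex.exp (((-(ξ * Real.log X) : ℝ) : ℂ) * Complex.I) *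
        PP8 χ e (t - ξ) = ∑ z ∈ Fintype.piFinset (fun i : Fin 8 => Icc 1 (2 ^ (e i + 1))), K ξ *
          Complex.exp (((-(ξ * Real.log X) : ℝ) : ℂ) * Complex.I) *
          ((∏ i, ((w0 i (e i) (z i) : ℝ) : ℂ)) * (χ ((∏ i, z i : ℕ) : ZMod q) *
          ch (t - ξ) (∏ i, z i) / ((∏ i, z i : ℕ) : ℂ))) := by
      intro ξ
      rw [PP8_eq_DEC4, Finset.mul_sum]
    simp_rw [h2]
    rw [integral_finsetSum]
    · refine Finset.sum_congr rfl fun z hz => ?_
      have hz1 : 1 ≤ ∏ i, z i := by
        rw [Fintype.mem_piFinset] at hz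
        exact Finset.one_le_prod' fun i _ => (Finset.mem_Icc.mp (hz i)).1
      rw [hgi _ hz1, ← integral_const_mul]
      refine integral_congr_ae (Filter.Eventually.of_forall fun ξ => ?_)
      simp only
      ring
    · intro z _
      set n := ∏ i, z i with hn
      have h3 : Integrable (fun ξ : ℝ => K ξ *
          (Complex.exp (((-(ξ * Real.log X) : ℝ) : ℂ) * Complex.I) * ch (t - ξ) n)) := by
        refine hKi.mul_bdd (c := 1) ?_ (Filter.Eventually.of_forall fun ξ => ?_)
        · have : Continuous (fun ξ : ℝ =>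
              Complex.exp (((-(ξ * Real.log X) : ℝ) : ℂ) * Complex.I) * ch (t - ξ) n) := by
            have h4 := (ch_cont n).comp (continuous_const.sub continuous_id : Continuous
              (fun ξ : ℝ => t - ξ))
            have h5 : Continuous (fun ξ : ℝ =>
              Complex.exp (((-(ξ * Real.log X) : ℝ) : ℂ) * Complex.I)) := by fun_prop
            exact h5.mul h4
          exact this.aestronglyMeasurable
        · rw [norm_mul, Complex.norm_exp_ofReal_mul_I, ch_norm', mul_one]
      have h4 := h3.mul_const ((∏ i, ((w0 i (e i) (z i) : ℝ) : ℂ)) *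
          (χ (n : ZMod q) / (n : ℂ)))
      refine h4.congr (Filter.Eventually.of_forall fun ξ => ?_)
      simp only
      ring
  -- assembly
  have hGA : GA w χ X t = ∑ n ∈ Icc 1 (2 ^ (4 * u)), ((Λ n : ℝ) : ℂ) * g n := by
    unfold GA
    rw [← Finset.sum_subset (Finset.Icc_subset_Icc le_rfl hu)]
    · refine Finset.sum_congr rfl fun n _ => ?_
      rw [hg]
      push_cast
      ring
    · intro n hn hn'
      rw [Finset.mem_Icc] at hn hn'
      rw [hgz n (Or.inr (by omega)), mul_zero]
  rw [hGA, hHB u g (fun n hn => hgz n (Or.inr (by omega)))]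
  symm
  rw [Finset.sum_filter]
  refine Finset.sum_congr rfl fun e _ => ?_
  rw [← hTe]
  by_cases h1 : X ≤ 16 * 2 ^ (∑ i, e i) ∧ 2 ^ (∑ i, e i) ≤ 1024 * X
  · rw [if_pos h1]
  · rw [if_neg h1]
    symm
    apply mul_eq_zero_of_right
    unfold Te8
    refine Finset.sum_eq_zero fun z hz => ?_
    rw [Fintype.mem_piFinset] at hz
    have hz1 : ∀ i, 1 ≤ z i := fun i => (Finset.mem_Icc.mp (hz i)).1
    by_cases hw0 : ∀ i, w0 i (e i) (z i) ≠ 0
    · apply mul_eq_zero_of_right
      have hb := fun i => hB.2.1 i (e i) (z i) (hz1 i) (hw0 i)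
      have hge : 2 ^ (∑ i, e i) ≤ 256 * ∏ i, z i := by
        calc 2 ^ (∑ i, e i) = ∏ i, 2 ^ e i := (Finset.prod_pow_eq_pow_sum _ _ _).symm
          _ ≤ ∏ i : Fin 8, (2 * z i) := Finset.prod_le_prod' fun i _ => (hb i).1
          _ = 256 * ∏ i, z i := by
            rw [Finset.prod_mul_distrib, Finset.prod_const, Finset.card_univ, Fintype.card_fin]
            norm_num
      have hle : ∏ i, z i ≤ 16 * 2 ^ (∑ i, e i) := by
        calc ∏ i, z i ≤ ∏ i : Fin 8, ((if (i : ℕ) < 4 then 1 else 2) * 2 ^ e i) := by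
              refine Finset.prod_le_prod' fun i _ => ?_
              by_cases hi : (i : ℕ) < 4
              · rw [if_pos hi, one_mul]
                exact (hb i).2.2 hi
              · rw [if_neg hi, ← pow_succ']
                exact (hb i).2.1
          _ = 16 * 2 ^ (∑ i, e i) := by
            rw [Finset.prod_mul_distrib, Finset.prod_pow_eq_pow_sum]
            congr 1
      apply hgz
      by_contra hcon
      push Not at hcon
      apply h1
      refine ⟨by omega, by omega⟩
    · push Not at hw0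
      obtain ⟨i, hi⟩ := hw0
      apply mul_eq_zero_of_left
      apply Finset.prod_eq_zero (Finset.mem_univ i)
      rw [hi, Complex.ofReal_zero]

end Pool.Agent.Helper17.GW
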