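import Pool.Agent.Helper63.GW.StA
import Pool.Agent.Helper11.GK.M_MOB

/-!
# Project GW, module MOBC: Moebius sums with `χ(n) n^{-iτ}`, any exponent (copy of `Helper11/GK/M_MOB`)
-/

set_option autoImplicit false

namespace Pool.Agent.Helper17.GW

open Finset ArithmeticFunction Filter MeasureTheory
open Pool.Agent.Helper23.GK
open Pool.Agent.Helper2.MR (ch)
open Pool.Agent.Helper11.GK
open Pool.Agent.Helper63.GW

lemma ev_MOBC (c : ℝ) (hc0 : 0 < c) (B a : ℕ) (K K' : ℝ) : ∀ᶠ L : ℝ in atTop, 60 ≤ L ∧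
    (3 : ℝ) ^ (9 / 10 : ℝ) * (((B : ℝ) + 2) * Real.log L) ≤ L ^ (1 / 20 : ℝ) ∧ K ≤ L ∧
    K' * L ^ a ≤ Real.exp (c * L) := by
  have h1 := ev_MOB B a K K'
  have h4 : ∀ᶠ L : ℝ in atTop, K' * L ^ a ≤ Real.exp (c * L) := by
    have h := isLittleO_pow_exp_pos_mul_atTop a (b := c) hc0
    have hc : 0 < (|K'| + 1)⁻¹ := by positivity
    filter_upwards [h.bound hc, eventually_ge_atTop (1 : ℝ)] with L hL hL1
    rw [Real.norm_of_nonneg (by positivity), Real.norm_of_nonneg (Real.exp_pos _).le] at hL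
    have hc' : 0 < |K'| + 1 := by positivity
    calc K' * L ^ a ≤ (|K'| + 1) * L ^ a := by
          gcongr
          linarith [le_abs_self K']
      _ ≤ (|K'| + 1) * ((|K'| + 1)⁻¹ * Real.exp (c * L)) := by gcongr
      _ = Real.exp (c * L) := by
          rw [← mul_assoc, mul_inv_cancel₀ hc'.ne', one_mul]
  filter_upwards [h1, h4] with L a b
  exact ⟨a.1, a.2.1, a.2.2.1, b⟩

theorem hMOBC_of (h1 : StMuk) (h2 : StPer) (h3 : StRml) : StMobc := by
  intro A B c hc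
  obtain ⟨C0, hC0⟩ := h1
  obtain ⟨A', hA'⟩ : ∃ A' : ℕ, A' = A + 1 := ⟨_, rfl⟩
  obtain ⟨m, hm⟩ : ∃ m : ℕ, m = (B + 2) * C0 + (2 * A' + 6) := ⟨_, rfl⟩
  obtain ⟨k, hk⟩ : ∃ k : ℕ, k = 20 * m := ⟨_, rfl⟩
  have hk1 : 1 ≤ k := by omega
  obtain ⟨C', hC'0, hC'⟩ := hC0 k
  obtain ⟨CR, hCR0, hCR⟩ := h3 k
  obtain ⟨CU, hCU0, hCU⟩ := Pool.Agent.Helper48.BK.hUns A'
  obtain ⟨B1, hB1⟩ : ∃ B1 : ℕ, B1 = B + 2 * (k + 1) + 4 := ⟨_, rfl⟩
  obtain ⟨D, hD0, hD⟩ := sum_MOB h2 k C0 hC'0 hC' B B1 hB1.ge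
  obtain ⟨C2, hC2⟩ : ∃ C2 : ℝ, C2 = CR * D * c⁻¹ ^ k := ⟨_, rfl⟩
  have hC20 : 0 < C2 := by rw [hC2]; positivity
  obtain ⟨K, hK⟩ : ∃ K : ℝ, K = 4 * C2 * 2 ^ (2 * A' + 2) + 2 * CU * c⁻¹ ^ A' + 2 / c := ⟨_, rfl⟩
  have hev := ev_MOBC c hc B (2 * A' + 3) K (6 * 2 ^ (2 * A' + 2))
  have hev2 : ∀ᶠ X : ℕ in atTop, 60 ≤ Real.log X ∧
      (3 : ℝ) ^ (9 / 10 : ℝ) * (((B : ℝ) + 2) * Real.log (Real.log X)) ≤
        Real.log X ^ (1 / 20 : ℝ) ∧ K ≤ Real.log X ∧
      6 * 2 ^ (2 * A' + 2) * Real.log X ^ (2 * A' + 3) ≤ Real.exp (c * Real.log X) :=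
    (Real.tendsto_log_atTop.comp tendsto_natCast_atTop_atTop).eventually hev
  obtain ⟨X0, hX0⟩ := eventually_atTop.1 hev2
  refine ⟨B1, X0, ?_⟩
  intro X hX q _ χ N τ hq hN1 hN2 hτ1 hτ2
  obtain ⟨h60, hl, hKL, hexp⟩ := hX0 X hX
  obtain ⟨L, hL⟩ : ∃ L : ℝ, L = Real.log X := ⟨_, rfl⟩
  rw [← hL] at h60 hl hKL hexp hq hτ1 ⊢
  have hL0 : 0 < L := by linarith
  have hL1 : 1 ≤ L := by linarith
  have hXpos : (0 : ℝ) < X := by
    rcases Nat.eq_zero_or_pos X with rfl | hX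
    · rw [hL, Nat.cast_zero, Real.log_zero] at h60
      linarith
    · exact_mod_cast hX
  have hN6 : Real.exp (c * L) ≤ N := by
    refine le_trans (le_of_eq ?_) hN1
    rw [Real.rpow_def_of_pos hXpos, ← hL]
    congr 1
    ring
  have hcL : 0 < c * L := by positivity
  have h2cL : 2 ≤ c * L := by
    have e1 : 0 < 4 * C2 * 2 ^ (2 * A' + 2) := by positivity
    have e2 : 0 < 2 * CU * c⁻¹ ^ A' := by positivity
    have e3 : 2 / c ≤ L := by linarith
    rw [div_le_iff₀ hc] at e3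
    linarith
  have hNpos : (0 : ℝ) < N := (Real.exp_pos _).trans_le hN6
  have hlogN1 : c * L ≤ Real.log N := by
    rw [Real.le_log_iff_exp_le hNpos]; exact hN6
  have hN2' : (N : ℝ) ≤ (X : ℝ) ^ 2 := by exact_mod_cast hN2
  have hlogN2 : Real.log N ≤ 2 * L := by
    have e1 := Real.log_le_log hNpos hN2'
    rw [Real.log_pow, ← hL] at e1
    push_cast at e1
    exact e1
  have hN3 : 3 ≤ N := by
    have e1 : (3 : ℝ) ≤ N := by
      have := Real.add_one_le_exp (c * L)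
      linarith
    exact_mod_cast e1
  -- the smoothed sums
  have hsm : ∀ N' ∈ Icc N (2 * N), ‖∑ n ∈ Ioc 0 N', (cmu χ n * ch τ n) *
      ((Real.posLog ((N' : ℝ) / n) : ℝ) : ℂ)‖ ≤ 1 * N / Real.log N ^ (2 * A' + 2) := by
    intro N' hN'
    rw [mem_Icc] at hN'
    have hN'pos : (0 : ℝ) < N' := by
      have : (N : ℝ) ≤ N' := by exact_mod_cast hN'.1
      linarith
    have hN'2 : (N' : ℝ) ≤ 2 * N := by exact_mod_cast hN'.2
    have hN'1 : (N : ℝ) ≤ N' := by exact_mod_cast hN'.1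
    have hlog' : c * L ≤ Real.log N' := hlogN1.trans (Real.log_le_log hNpos hN'1)
    have hlog'2 : Real.log N' ≤ 3 * L := by
      have e1 := Real.log_le_log hN'pos hN'2
      rw [Real.log_mul (by norm_num) hNpos.ne'] at e1
      have e2 := Real.log_two_lt_d9
      linarith
    obtain ⟨a, ha⟩ : ∃ a : ℕ → ℂ, a = fun n => if n = 1 then 0 else cmu χ n * ch τ n := ⟨_, rfl⟩
    have ha1 : a 1 = 0 := by rw [ha]; simp
    have hak : ∀ n, a n * ((Real.log n : ℝ) : ℂ) ^ k = fk_MOB χ k τ n := by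
      intro n
      rw [ha]
      by_cases hn : n = 1
      · subst hn
        rw [fk_one_MOB χ (by omega : k ≠ 0) τ]
        simp
      · simp only [if_neg hn]
        rw [fk_MOB, Mk, cmu]
        ring
    have hR := hCR a (D * (L ^ (19 / 20 : ℝ)) ^ k * (L ^ (B + 2)) ^ C0) N' ha1 (by omega)
      (by
        intro x hx1 hx2
        have e1 := hD L τ X q N' χ hL h60 hl hq hτ1 hτ2 (by omega) x hx1 hx2
        refine le_trans (le_of_eq ?_) e1
        congr 1
        refine sum_congr rfl fun n _ => ?_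
        rw [hak n])
    have hsplit : ∑ n ∈ Ioc 0 N', (cmu χ n * ch τ n) * ((Real.posLog ((N' : ℝ) / n) : ℝ) : ℂ) =
        ∑ n ∈ Ioc 0 N', a n * ((Real.posLog ((N' : ℝ) / n) : ℝ) : ℂ) +
        (cmu χ 1 * ch τ 1) * ((Real.posLog ((N' : ℝ) / (1 : ℕ)) : ℝ) : ℂ) := by
      have hs := split_MOB ((cmu χ 1 * ch τ 1) *
        ((Real.posLog ((N' : ℝ) / (1 : ℕ)) : ℝ) : ℂ)) (n := N') (by omega)
      rw [← hs, ← sum_add_distrib]
      refine sum_congr rfl fun n _ => ?_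
      rw [ha]
      by_cases hn : n = 1
      · subst hn
        simp
      · simp [hn]
    have hone : ‖(cmu χ 1 * ch τ 1) * ((Real.posLog ((N' : ℝ) / (1 : ℕ)) : ℝ) : ℂ)‖ ≤ 3 * L := by
      rw [norm_mul, norm_mul, norm_ch_MOB, mul_one, Complex.norm_real]
      have e1 : ‖Real.posLog ((N' : ℝ) / (1 : ℕ))‖ = Real.log N' := by
        have e0 : (1 : ℝ) ≤ N' := by
          have : (3 : ℝ) ≤ N := by exact_mod_cast hN3
          linarith
        rw [Nat.cast_one, div_one, Real.posLog_eq_log (by rw [abs_of_pos hN'pos]; exact e0),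
          Real.norm_of_nonneg (Real.log_nonneg e0)]
      rw [e1]
      have e2 := norm_cmu_MOB χ 1
      have e3 : 0 ≤ Real.log N' := by linarith
      nlinarith
    rw [hsplit]
    refine (norm_add_le _ _).trans ?_
    refine (add_le_add hR hone).trans ?_
    -- the main inequality
    have hpow : (L ^ (19 / 20 : ℝ)) ^ k = L ^ (19 * m) := by
      rw [← Real.rpow_natCast (L ^ (19 / 20 : ℝ)) k, ← Real.rpow_mul hL0.le, hk,
        ← Real.rpow_natCast L (19 * m)]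
      congr 1
      push_cast
      ring
    have hmain : CR * (D * (L ^ (19 / 20 : ℝ)) ^ k * (L ^ (B + 2)) ^ C0) * N' / Real.log N' ^ k ≤
        C2 * (2 * N) / L ^ (2 * A' + 6) := by
      have e1 : (c * L) ^ k ≤ Real.log N' ^ k := by gcongr
      have e2 : 0 < (c * L) ^ k := by positivity
      calc CR * (D * (L ^ (19 / 20 : ℝ)) ^ k * (L ^ (B + 2)) ^ C0) * N' / Real.log N' ^ k ≤
          CR * (D * (L ^ (19 / 20 : ℝ)) ^ k * (L ^ (B + 2)) ^ C0) * (2 * N) / (c * L) ^ k := by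
            gcongr
        _ = CR * (D * L ^ (19 * m) * (L ^ (B + 2)) ^ C0) * (2 * N) / (c * L) ^ k := by rw [hpow]
        _ = C2 * (2 * N) / L ^ (2 * A' + 6) := by
            rw [hC2, mul_pow c L, inv_pow]
            have e3 : L ^ k = L ^ (19 * m) * (L ^ (B + 2)) ^ C0 * L ^ (2 * A' + 6) := by
              rw [← pow_mul, ← pow_add, ← pow_add]
              congr 1
              rw [hk]
              have : 20 * m = 19 * m + m := by ring
              rw [this]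
              rw [Nat.add_assoc]
              congr 1
            rw [e3]
            field_simp
    refine (add_le_add hmain le_rfl).trans ?_
    have hlogN0 : 0 < Real.log N := by linarith
    have hfin : (N : ℝ) / (2 * L) ^ (2 * A' + 2) ≤ 1 * N / Real.log N ^ (2 * A' + 2) := by
      rw [one_mul]
      gcongr
    refine le_trans ?_ hfin
    have e1 : C2 * (2 * N) / L ^ (2 * A' + 6) ≤ (N / (2 * L) ^ (2 * A' + 2)) / 2 := by
      rw [div_div, div_le_div_iff₀ (by positivity) (by positivity)]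
      have e2 : 4 * C2 * 2 ^ (2 * A' + 2) ≤ L ^ 4 := by
        have e3 : 4 * C2 * 2 ^ (2 * A' + 2) ≤ L := by
          have : 0 < 2 * CU * c⁻¹ ^ A' := by positivity
          have : 0 < 2 / c := by positivity
          linarith
        exact e3.trans (le_self_pow₀ hL1 (by norm_num))
      calc C2 * (2 * N) * ((2 * L) ^ (2 * A' + 2) * 2) =
          (4 * C2 * 2 ^ (2 * A' + 2)) * (N * L ^ (2 * A' + 2)) := by rw [mul_pow]; ring
        _ ≤ L ^ 4 * (N * L ^ (2 * A' + 2)) := by gcongr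
        _ = N * L ^ (2 * A' + 6) := by ring
    have e4 : 3 * L ≤ (N / (2 * L) ^ (2 * A' + 2)) / 2 := by
      rw [div_div, le_div_iff₀ (by positivity)]
      calc 3 * L * ((2 * L) ^ (2 * A' + 2) * 2) =
          6 * 2 ^ (2 * A' + 2) * L ^ (2 * A' + 3) := by rw [mul_pow]; ring
        _ ≤ N := hexp.trans hN6
    linarith
  have hU := hCU (fun n => cmu χ n * ch τ n) N 1 hN3 zero_le_one
    (by
      intro n hn
      rw [norm_mul, norm_ch_MOB, mul_one]
      have e1 := norm_cmu_MOB χ n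
      have e2 : 0 ≤ Real.log n := Real.log_nonneg (by exact_mod_cast hn)
      linarith) hsm
  refine hU.trans ?_
  have e1 : (c * L) ^ A' ≤ Real.log N ^ A' := by gcongr
  have e2 : 2 * CU * c⁻¹ ^ A' ≤ L := by
    have : 0 < 4 * C2 * 2 ^ (2 * A' + 2) := by positivity
    have : 0 < 2 / c := by positivity
    linarith
  calc CU * (1 + 1) * N / Real.log N ^ A' ≤ CU * (1 + 1) * N / (c * L) ^ A' := by gcongr
    _ = (2 * CU * c⁻¹ ^ A') * N / L ^ A' := by rw [mul_pow, inv_pow]; field_simp; ring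
    _ ≤ L * N / L ^ A' := by gcongr
    _ = N / L ^ A := by rw [hA', pow_succ]; field_simp


end Pool.Agent.Helper17.GW
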