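import Pool.Agent.Helper17.GW.M_MOBC
import Pool.Agent.Helper23.GK.All

/-!
# Project GW, module MOBC: Moebius sums with `χ(n) n^{-iτ}`, any exponent, without hypotheses
-/

set_option autoImplicit false

namespace Pool.Agent.Helper17.GW

open Pool.Agent.Helper63.GW

theorem hMOBC : StMobc :=
  hMOBC_of Pool.Agent.Helper23.GK.AllGK.muk Pool.Agent.Helper23.GK.AllGK.per
    Pool.Agent.Helper23.GK.AllGK.rml

end Pool.Agent.Helper17.GW
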